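import Pool.Agent.H17.IEP.MB

/-!
# MP_e37c09_lc, module MD: preimages
-/

open Ordinal Cardinal Order Set
open scoped ZFSet
open _root_.HD Pool.Agent.H10.IEP Pool.Agent.H17.IEP

universe u

namespace Pool.Agent.H39.IEP

theorem pf_MD (hXE : T_XE.{u}) : T_MD.{u} := by
  intro δ η θ j μ κ ρ hs A hA
  have hj := hs.emb
  have hωδ : ω < δ := hs.dom
  have hκcof : ℵ₀ < κ.cof := by
    have h1 : ω < κ.cof.ord := hωδ.trans_le hs.kcof
    rw [← Cardinal.ord_aleph0] at h1
    exact Cardinal.ord_lt_ord.1 h1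
  constructor
  · intro a ha
    -- one step
    have hstep : ∀ ξ : Iio κ, ∃ p : Iio κ, ∃ y ∈ A, Jo j ξ.1 < y ∧ y < Jo j p.1 := by
      rintro ⟨ξ, hξ⟩
      obtain ⟨y, h1, h2, h3⟩ := hA.unb _ (hs.lt ξ hξ)
      obtain ⟨p, h4, h5⟩ := hs.sup y h1
      exact ⟨⟨p, h4⟩, y, h3, h2, h5⟩
    choose st hst using hstep
    let s : ℕ → Iio κ := fun n => st^[n] ⟨a, ha⟩
    have hs1 : ∀ n, s (n + 1) = st (s n) := fun n => Function.iterate_succ_apply' _ _ _
    have hη : ∀ n, (s n).1 < η := fun n => (s n).2.trans hs.kη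
    have hlt1 : ∀ n, (s n).1 < (s (n + 1)).1 := by
      intro n
      obtain ⟨y, -, h2, h3⟩ := hst (s n)
      rw [← hj.lt_iff (hη n) (hη (n + 1)), hs1]
      exact h2.trans h3
    have hmono : StrictMono fun n => (s n).1 := strictMono_nat_of_lt_succ hlt1
    have hbdd : BddAbove (range fun n => (s n).1) := ⟨κ, by
      rintro _ ⟨n, rfl⟩
      exact (s n).2.le⟩
    set x : Ordinal.{u} := ⨆ n, (s n).1 with hx
    have hle : ∀ n, (s n).1 ≤ x := fun n => le_ciSup hbdd n
    have hltx : ∀ n, (s n).1 < x := fun n => (hlt1 n).trans_le (hle (n + 1))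
    have hcofx : ∀ z < x, ∃ n, z < (s n).1 := fun z hz => by
      obtain ⟨n, hn⟩ := exists_lt_of_lt_ciSup hz
      exact ⟨n, hn⟩
    have hxκ : x < κ := by
      refine Ordinal.lift_iSup_lt_of_lt_cof ?_ fun n => (s n).2
      rw [Cardinal.mk_nat, Cardinal.lift_aleph0, ← Ordinal.lift_cof]
      exact (Cardinal.aleph0_lt_lift).2 hκcof
    have hxη : x < η := hxκ.trans hs.kη
    -- the cofinality of `x`
    have hcof : x.cof = ℵ₀ := by
      classical
      rw [← Ordinal.cof_omega0]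
      symm
      have key : ∀ b : Ordinal.{u}, b < ω → ∃ n : ℕ, b = n := fun b hb => Ordinal.lt_omega0.1 hb
      refine mb_cof_eq (fun b => if h : ∃ n : ℕ, b = n then (s h.choose).1 else 0) ?_ ?_ ?_
      · intro b c hbc hc
        have h1 := key b (hbc.trans hc)
        have h2 := key c hc
        simp only [dif_pos h1, dif_pos h2]
        have e1 := h1.choose_spec
        have e2 := h2.choose_spec
        refine hmono ?_
        have : ((h1.choose : ℕ) : Ordinal.{u}) < (h2.choose : ℕ) := by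
          rw [← e1, ← e2]; exact hbc
        exact_mod_cast this
      · intro b hb
        simp only [dif_pos (key b hb)]
        exact hltx _
      · intro z hz
        obtain ⟨n, hn⟩ := hcofx z hz
        have h1 : ∃ m : ℕ, (n : Ordinal.{u}) = m := ⟨n, rfl⟩
        refine ⟨n, Ordinal.natCast_lt_omega0 n, ?_⟩
        simp only [dif_pos h1]
        have e1 : n = h1.choose := by exact_mod_cast h1.choose_spec
        rw [← e1]
        exact hn
    have hC := hXE δ η θ j hj x hxη ℵ₀ Cardinal.isRegular_aleph0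
      (by rw [Cardinal.ord_aleph0]; exact hωδ) (by unfold Cf; rw [hcof])
    obtain ⟨hC1, hC2⟩ := hC
    unfold Cf at hC2
    refine ⟨x, hxκ, hltx 0, ?_⟩
    refine hA.cls (Jo j x) (hs.lt x hxκ) ?_ ?_ ?_
    · refine lt_of_le_of_lt (bot_le : ⊥ ≤ Jo j (s 0).1) ?_
      exact (hj.lt_iff (hη 0) hxη).2 (hltx 0)
    · rw [hC2, Cardinal.ord_aleph0]
      exact hs.oμ
    · intro y hy
      obtain ⟨ξ, h1, h2⟩ := hC1 y hy
      obtain ⟨n, hn⟩ := hcofx ξ h1
      obtain ⟨z, hzA, h3, h4⟩ := hst (s n)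
      refine ⟨z, ?_, ?_, hzA⟩
      · refine h4.trans ?_
        rw [← hs1]
        exact (hj.lt_iff (hη (n + 1)) hxη).2 (hltx (n + 1))
      · refine h2.trans (lt_trans ?_ h3)
        exact (hj.lt_iff (hn.trans (hη n)) (hη n)).2 hn
  · intro x hx hx0 hxμ hxl
    have hxη : x < η := hx.trans hs.kη
    have hlim : IsSuccLimit x := by
      rw [Ordinal.isSuccLimit_iff, Order.isSuccPrelimit_iff_succ_lt]
      refine ⟨hx0.ne', fun a ha => ?_⟩
      obtain ⟨b, hb, hab, -⟩ := hxl a ha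
      exact lt_of_le_of_lt (Order.succ_le_of_lt hab) hb
    have hreg : x.cof.IsRegular := Cardinal.isRegular_cof hlim
    obtain ⟨h1, h2⟩ := hXE δ η θ j hj x hxη x.cof hreg (lt_of_le_of_lt hxμ hs.μδ) rfl
    unfold Cf at h2
    refine hA.cls (Jo j x) (hs.lt x hx) ?_ ?_ ?_
    · rw [← hj.Jo_zero]
      exact (hj.lt_iff (hx0.trans hxη) hxη).2 hx0
    · rw [h2]
      exact hxμ
    · intro w hw
      obtain ⟨ξ, h3, h4⟩ := h1 w hw
      obtain ⟨z, h5, h6, h7⟩ := hxl ξ h3
      exact ⟨Jo j z, (hj.lt_iff (h5.trans hxη) hxη).2 h5,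
        h4.trans ((hj.lt_iff (h3.trans hxη) (h5.trans hxη)).2 h6), h7⟩

end Pool.Agent.H39.IEP
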